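import Pool.Agent.V11246.Kw

/-!
# Compact metrizable spaces are separable, but the other three principles fail

The model is a symmetric extension of a countable elementary substructure of the sets of Lean. The
columns are the pairs of a natural number (the level) and a finite set of natural numbers (a
vector over the field with two elements), and the group of the columns is generated by the
transvections of the levels. In the extension the set `A n` of the columns of level `n` is
countable for every `n`, and every totally bounded set can be well-ordered. There is no sequence
of tournaments on the sets `A n`, since a transvection of level `n` exchanges two vectors, and the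
union of the sets `A n` is not countable.
-/

namespace Pool.Agent.Results.MP_1454e8_lc.SeparableNotChoice

open FirstOrder FirstOrder.Language
open Pool.Agent.Helper672.Plain (LSet)
open Pool.Agent.H635Amen (ZF)
open Pool.Agent.V11246 (MCS CACCM CPMS CPMC)

/-- There is a model of ZF in which every compact metrizable space is separable, some sequence of
nonempty compact metrizable spaces has no choice function, some countable product of compact
metrizable spaces is not separable, and some countable product of compact metrizable spaces is not
compact. -/
theorem result : ∃ (N : Type 1) (_ : LSet.Structure N), ZF N ∧ MCS N ∧ ¬ CACCM N ∧ ¬ CPMS N ∧
    ¬ CPMC N := by
  obtain ⟨N, hL, hZ, h1, h2, h3, h4, -⟩ := Pool.Agent.Helper672.ZFA.V246X.exists_e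
  exact ⟨N, hL, hZ, h1, h2, h3, h4⟩

end Pool.Agent.Results.MP_1454e8_lc.SeparableNotChoice
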